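import Pool.Agent.Y971.SG.Bes
import Pool.Agent.Y987.SG.Zer
import Pool.Agent.Y468.SG.Step
import Pool.Agent.Y96.SG.Sol2
import Pool.Agent.Y302.SG.Ode
import Pool.Agent.Y302.SG.Log
import Pool.Agent.Y302.SG.Ze1
import Pool.Agent.Y986.SG.Ze2
import Pool.Agent.Y986.SG.Rank
import Pool.Agent.Y759.SG.Sieg
import Pool.Agent.Y376.SG.PS
import Pool.Agent.Y542.SG.Up
import Pool.Agent.Y514.SG.Ht
import Pool.Agent.Y406.SG.Liou
import Pool.Agent.Y376.SG.Fin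
import Pool.Agent.Y427.SG.Bour

/-!
Project SG: Siegel's theorem and Bourget's hypothesis for `J_1`.
-/

set_option autoImplicit false

namespace Pool.Agent.Y245.SG

theorem siegel_thm : ∀ α : ℂ, α ≠ 0 → IsAlgebraic ℚ α → Bn 1 α ≠ 0 :=
  Pool.Agent.Y376.SG.siegel Pool.Agent.Y971.SG.bes Pool.Agent.Y987.SG.bnc
    Pool.Agent.Y468.SG.step_thm Pool.Agent.Y468.SG.sol1 Pool.Agent.Y376.SG.ps
    Pool.Agent.Y759.SG.sieg Pool.Agent.Y986.SG.rank Pool.Agent.Y542.SG.up Pool.Agent.Y514.SG.ht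
    Pool.Agent.Y406.SG.liou
    (Pool.Agent.Y986.SG.ze2 Pool.Agent.Y971.SG.bes Pool.Agent.Y987.SG.bnc Pool.Agent.Y987.SG.binf
      Pool.Agent.Y468.SG.step_thm Pool.Agent.Y468.SG.sol1 Pool.Agent.Y96.SG.sol2
      Pool.Agent.Y302.SG.ode Pool.Agent.Y302.SG.logt Pool.Agent.Y302.SG.ze1)

theorem bourget : ∀ (m : ℕ) (q : ℂ), 2 ≤ m → q ≠ 0 → ¬ (Bn 1 q = 0 ∧ Bn m q = 0) :=
  Pool.Agent.Y427.SG.bour Pool.Agent.Y971.SG.bes Pool.Agent.Y987.SG.bnc siegel_thm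

end Pool.Agent.Y245.SG
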