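import Mathlib

/-!
Project SG (helper245): Siegel's theorem, `J_1(x) ≠ 0` for algebraic `x ≠ 0`, and Bourget's
hypothesis for `J_1` and `J_m`. Statements of the building blocks.

`Bn ν z = ∑ (-z)^k / (k! (k+ν)!)`, so `J_ν(x) = (x/2)^ν Bn ν (x²/4)`. In the coordinate
`z = exp ω` the operator `D = z d/dz` is `d/dω`; the pair `(x, y) = (Bn 0, Bn 1)` solves
`x' = - e^ω y`, `y' = x - y`. For polynomials `P_0, …, P_N` put `Λ = ∑ P_i x^i y^(N-i)`; then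
`Λ' = ∑ (step P)_i x^i y^(N-i)`.
-/

set_option autoImplicit false

open Complex Polynomial Filter Topology

namespace Pool.Agent.Y245.SG

/-- Bessel-Clifford functions -/
noncomputable def Bn (ν : ℕ) (z : ℂ) : ℂ :=
  ∑' k : ℕ, (-z) ^ k / ((k.factorial : ℂ) * ((k + ν).factorial : ℂ))

/-- the forms `∑ P_i(e^ω) x^i y^(N-i)` -/
noncomputable def lamG (N : ℕ) (P : ℕ → ℤ[X]) (x y : ℂ → ℂ) (ω : ℂ) : ℂ :=
  ∑ i ∈ Finset.range (N + 1), aeval (exp ω) (P i) * x ω ^ i * y ω ^ (N - i)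

/-- the action of `D` on the coefficient vectors -/
noncomputable def step (N : ℕ) (P : ℕ → ℤ[X]) (i : ℕ) : ℤ[X] :=
  X * derivative (P i) - C ((N : ℤ) - i) * P i - C ((i : ℤ) + 1) * (X * P (i + 1)) +
    (match i with
      | 0 => 0
      | j + 1 => C ((N : ℤ) - j) * P j)

/-- iterates -/
noncomputable def Pk (N : ℕ) (P : ℕ → ℤ[X]) (k : ℕ) : ℕ → ℤ[X] := (step N)^[k] P

/-- `(x, y)` solves the system -/
def Sys (x y : ℂ → ℂ) : Prop := ∀ ω : ℂ,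
  HasDerivAt x (-(exp ω) * y ω) ω ∧ HasDerivAt y (x ω - y ω) ω

/-- the determinant of the first `N+1` forms -/
noncomputable def Det (N : ℕ) (P : ℕ → ℤ[X]) : ℤ[X] :=
  Matrix.det (Matrix.of fun k i : Fin (N + 1) => Pk N P k i)

/-- the formal power series of `Bn ν` -/
noncomputable def bs (ν : ℕ) : PowerSeries ℚ :=
  PowerSeries.mk fun k => (-1) ^ k / ((k.factorial : ℚ) * ((k + ν).factorial : ℚ))

/-- the formal power series of `∑ P_i B_0^i B_1^(N-i)` -/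
noncomputable def LamF (N : ℕ) (P : ℕ → ℤ[X]) : PowerSeries ℚ :=
  ∑ i ∈ Finset.range (N + 1),
    (((P i).map (Int.castRingHom ℚ) : ℚ[X]) : PowerSeries ℚ) * bs 0 ^ i * bs 1 ^ (N - i)

/-- the order of vanishing obtained from Siegel's lemma -/
def TT (N s n : ℕ) : ℕ := (N + 1) * (n + 1) - (n / s + 1)

/-! ### statements -/

/-- basic facts on the functions `Bn` -/
def S_BES : Prop := ∀ ν : ℕ, Differentiable ℂ (Bn ν) ∧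
  (∀ z : ℂ, HasSum (fun k : ℕ => (-z) ^ k / ((k.factorial : ℂ) * ((k + ν).factorial : ℂ))) (Bn ν z)) ∧
  (∀ z : ℂ, HasDerivAt (Bn ν) (-Bn (ν + 1) z) z) ∧
  ∀ z : ℂ, z * Bn (ν + 2) z = ((ν : ℂ) + 1) * Bn (ν + 1) z - Bn ν z

/-- `Bn ν` and `Bn (ν+1)` have no common zero -/
def S_BNC : Prop := S_BES → ∀ (ν : ℕ) (z : ℂ), ¬ (Bn ν z = 0 ∧ Bn (ν + 1) z = 0)

/-- `J_0` has infinitely many zeros -/
def S_BINF : Prop := S_BES → {z : ℂ | Bn 0 z = 0}.Infinite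

/-- differentiation of the forms -/
def S_STEP : Prop := ∀ (N : ℕ) (P : ℕ → ℤ[X]) (x y : ℂ → ℂ), (∀ i, N < i → P i = 0) → Sys x y →
  (∀ i, N < i → step N P i = 0) ∧
  ∀ ω : ℂ, HasDerivAt (lamG N P x y) (lamG N (step N P) x y ω) ω

/-- the first solution -/
def S_SOL1 : Prop := S_BES → Sys (fun ω => Bn 0 (exp ω)) (fun ω => Bn 1 (exp ω))

/-- the second solution, with a logarithm -/
def S_SOL2 : Prop := S_BES → ∃ v0 v1 : ℂ → ℂ, Differentiable ℂ v0 ∧ Differentiable ℂ v1 ∧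
  (∀ ω, v0 (ω + 2 * Real.pi * I) = v0 ω) ∧ (∀ ω, v1 (ω + 2 * Real.pi * I) = v1 ω) ∧
  Sys (fun ω => ω * Bn 0 (exp ω) + v0 ω) (fun ω => ω * Bn 1 (exp ω) + v1 ω)

/-- a linear differential equation of order `≤ N` has at most `N` independent entire solutions -/
def S_ODE : Prop := ∀ (N : ℕ) (q : ℕ → ℂ → ℂ) (h : ℕ → ℂ → ℂ),
  (∀ k, Differentiable ℂ (q k)) → (∃ k ≤ N, ∃ ω, q k ω ≠ 0) → (∀ m, Differentiable ℂ (h m)) →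
  (∀ m ≤ N, ∀ ω, ∑ k ∈ Finset.range (N + 1), q k ω * iteratedDeriv k (h m) ω = 0) →
  ∃ e : ℕ → ℂ, (∃ m ≤ N, e m ≠ 0) ∧ ∀ ω, ∑ m ∈ Finset.range (N + 1), e m * h m ω = 0

/-- independence of shifted polynomials with periodic coefficients and top coefficient not zero -/
def S_LOG : Prop := ∀ (N : ℕ) (Θ : ℕ → ℂ → ℂ) (e : ℕ → ℂ),
  (∀ j ω, Θ j (ω + 2 * Real.pi * I) = Θ j ω) → (∃ ω, Θ N ω ≠ 0) →
  (∀ ω, ∑ m ∈ Finset.range (N + 1), e m * ∑ j ∈ Finset.range (N + 1), (ω + m) ^ j * Θ j ω = 0) →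
  ∀ m ≤ N, e m = 0

/-- the forms do not vanish identically -/
def S_ZE1 : Prop := S_BES → S_BNC → S_BINF → ∀ (N : ℕ) (P : ℕ → ℤ[X]), (∃ i ≤ N, P i ≠ 0) →
  ∃ ω, lamG N P (fun ω => Bn 0 (exp ω)) (fun ω => Bn 1 (exp ω)) ω ≠ 0

/-- zero estimate: the determinant is not zero -/
def S_ZE2 : Prop := S_BES → S_BNC → S_BINF → S_STEP → S_SOL1 → S_SOL2 → S_ODE → S_LOG → S_ZE1 →
  ∀ (N : ℕ) (P : ℕ → ℤ[X]), (∀ i, N < i → P i = 0) → (∃ i ≤ N, P i ≠ 0) → Det N P ≠ 0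

/-- Siegel's lemma -/
def S_SIEG : Prop := ∀ N s : ℕ, 1 ≤ N → 1 ≤ s → ∃ K : ℝ, 1 ≤ K ∧ ∀ n : ℕ, 1 ≤ n →
  ∃ P : ℕ → ℤ[X], (∀ i, N < i → P i = 0) ∧ (∃ i ≤ N, P i ≠ 0) ∧ (∀ i, (P i).natDegree ≤ n) ∧
    (∀ i k, k ≤ n → (|(P i).coeff k| : ℝ) ≤ K ^ n * ((n.factorial : ℝ) / k.factorial) ^ 2) ∧
    (PowerSeries.X : PowerSeries ℚ) ^ TT N s n ∣ LamF N P

/-- relation of the formal and the analytic forms: coefficients of `Λ` are small, and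
`D^k Λ = ∑ j^k λ_j z^j` -/
def S_PS : Prop := S_BES → ∀ (N : ℕ) (P : ℕ → ℤ[X]),
  (∀ (k : ℕ) (ω : ℂ), HasSum (fun j : ℕ => ((PowerSeries.coeff j (LamF N P) : ℚ) : ℂ) *
      (j : ℂ) ^ k * exp ω ^ j)
    (iteratedDeriv k (lamG N P (fun ω => Bn 0 (exp ω)) (fun ω => Bn 1 (exp ω))) ω)) ∧
  ∀ (n : ℕ) (K : ℝ), 0 ≤ K → (∀ i, (P i).natDegree ≤ n) →
    (∀ i k, k ≤ n → (|(P i).coeff k| : ℝ) ≤ K * ((n.factorial : ℝ) / k.factorial) ^ 2) →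
    ∀ j : ℕ, |((PowerSeries.coeff j (LamF N P) : ℚ) : ℝ)| ≤
      (N + 1) * (n + 1) * K * (n.factorial : ℝ) ^ 2 * (4 * ((N : ℝ) + 1) ^ 2) ^ j /
        (j.factorial : ℝ) ^ 2

/-- some derivative of `Λ` of small order does not vanish at a zero `α = exp w` of `Bn 1` -/
def S_RANK : Prop := S_BES → S_BNC → S_STEP → S_SOL1 → S_PS →
  ∀ (N s n : ℕ) (P : ℕ → ℤ[X]) (w : ℂ), 1 ≤ N → 1 ≤ s → 1 ≤ n →
  (∀ i, N < i → P i = 0) → Det N P ≠ 0 → (∀ i, (P i).natDegree ≤ n) →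
  (PowerSeries.X : PowerSeries ℚ) ^ TT N s n ∣ LamF N P → Bn 1 (exp w) = 0 →
  ∃ k ≤ N ^ 2 + N + n / s,
    iteratedDeriv k (lamG N P (fun ω => Bn 0 (exp ω)) (fun ω => Bn 1 (exp ω))) w =
      aeval (exp w) (Pk N P k N) * Bn 0 (exp w) ^ N ∧ aeval (exp w) (Pk N P k N) ≠ 0

/-- upper bound -/
def S_UP : Prop := S_BES → S_PS → ∀ (N s : ℕ) (K : ℝ) (w : ℂ), 1 ≤ N → 1 ≤ s → 1 ≤ K →
  ∃ K' : ℝ, 1 ≤ K' ∧ ∀ (n k : ℕ) (P : ℕ → ℤ[X]), 1 ≤ n → k ≤ N ^ 2 + N + n / s →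
  (∀ i, (P i).natDegree ≤ n) →
  (∀ i l, l ≤ n → (|(P i).coeff l| : ℝ) ≤ K ^ n * ((n.factorial : ℝ) / l.factorial) ^ 2) →
  (PowerSeries.X : PowerSeries ℚ) ^ TT N s n ∣ LamF N P →
  ‖iteratedDeriv k (lamG N P (fun ω => Bn 0 (exp ω)) (fun ω => Bn 1 (exp ω))) w‖ ≤
    K' ^ n * (n : ℝ) ^ ((3 / (s : ℝ) - 2 * N) * n)

/-- heights of the iterates -/
def S_HT : Prop := ∀ (N s : ℕ) (K : ℝ), 1 ≤ N → 1 ≤ s → 1 ≤ K →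
  ∃ K' : ℝ, 1 ≤ K' ∧ ∀ (n k : ℕ) (P : ℕ → ℤ[X]), 1 ≤ n → k ≤ N ^ 2 + N + n / s →
  (∀ i, N < i → P i = 0) → (∀ i, (P i).natDegree ≤ n) →
  (∀ i l, l ≤ n → (|(P i).coeff l| : ℝ) ≤ K ^ n * ((n.factorial : ℝ) / l.factorial) ^ 2) →
  ∀ i, (Pk N P k i).natDegree ≤ n + k ∧
    ∀ l, (|(Pk N P k i).coeff l| : ℝ) ≤ K' ^ n * (n : ℝ) ^ ((2 + 1 / (s : ℝ)) * n)

/-- Liouville's inequality -/
def S_LIOU : Prop := ∀ α : ℂ, IsAlgebraic ℚ α → ∃ (d : ℕ) (K : ℝ), 1 ≤ d ∧ 1 ≤ K ∧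
  ∀ (Q : ℤ[X]) (H : ℝ), aeval α Q ≠ 0 → (∀ l, (|Q.coeff l| : ℝ) ≤ H) →
    1 ≤ K ^ (Q.natDegree + 1) * H ^ (d - 1) * ‖aeval α Q‖

/-- Siegel's theorem -/
def S_SIEGEL : Prop := S_BES → S_BNC → S_STEP → S_SOL1 → S_PS → S_SIEG → S_RANK → S_UP →
  S_HT → S_LIOU → (∀ (N : ℕ) (P : ℕ → ℤ[X]), (∀ i, N < i → P i = 0) → (∃ i ≤ N, P i ≠ 0) →
    Det N P ≠ 0) →
  ∀ α : ℂ, α ≠ 0 → IsAlgebraic ℚ α → Bn 1 α ≠ 0

/-- Bourget's hypothesis for `J_1` and `J_m` -/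
def S_BOUR : Prop := S_BES → S_BNC → (∀ α : ℂ, α ≠ 0 → IsAlgebraic ℚ α → Bn 1 α ≠ 0) →
  ∀ (m : ℕ) (q : ℂ), 2 ≤ m → q ≠ 0 → ¬ (Bn 1 q = 0 ∧ Bn m q = 0)

end Pool.Agent.Y245.SG
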